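import Pool.Agent.R498.EJ.EJ13

set_option autoImplicit false

/-!
# `a_p(E₄/(j - j(C))) ≡ 0 (mod p²)` for supersingular `p`
-/

namespace Pool.Agent.Results.MP_06548c_nt.SupersingularCongruence

/-- the normalised Eisenstein series `E₄ = 1 + 240 ∑ σ₃(n) qⁿ` as a formal power series -/
noncomputable def E4 : PowerSeries ℚ :=
  PowerSeries.mk fun n => if n = 0 then 1 else 240 * (ArithmeticFunction.sigma 3 n : ℚ)

/-- the normalised Eisenstein series `E₆ = 1 - 504 ∑ σ₅(n) qⁿ` as a formal power series -/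
noncomputable def E6 : PowerSeries ℚ :=
  PowerSeries.mk fun n => if n = 0 then 1 else -504 * (ArithmeticFunction.sigma 5 n : ℚ)

/-- `Δ = (E₄³ - E₆²) / 1728`, as a formal Laurent series -/
noncomputable def Delta : LaurentSeries ℚ := ((E4 : LaurentSeries ℚ) ^ 3 - (E6 : LaurentSeries ℚ) ^ 2) / 1728

/-- `j = E₄³ / Δ = q⁻¹ + 744 + ⋯`, as a formal Laurent series -/
noncomputable def j : LaurentSeries ℚ := (E4 : LaurentSeries ℚ) ^ 3 / Delta

/-- the coefficient `a_n` of `qⁿ` in `E₄ / (j - x)` -/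
noncomputable def a (x : ℚ) (n : ℕ) : ℚ := ((E4 : LaurentSeries ℚ) / (j - HahnSeries.C x)).coeff n

/-- `p + 1 - #W(𝔽_p)` for a Weierstrass equation with integral coefficients; the points are the affine solutions
modulo `p` and the point at infinity -/
noncomputable def trace (W : WeierstrassCurve ℤ) (p : ℕ) : ℤ :=
  p + 1 - (1 + {P : ZMod p × ZMod p | P.2 ^ 2 + W.a₁ * P.1 * P.2 + W.a₃ * P.2 =
    P.1 ^ 3 + W.a₂ * P.1 ^ 2 + W.a₄ * P.1 + W.a₆}.ncard : ℕ)

/-- `p` is a prime of good reduction of `C` and supersingular: `C` is isomorphic over `ℚ` to a Weierstrass equation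
`W` with integral coefficients, whose discriminant is not divisible by `p`, and `p` divides `a_p(C) = p + 1 - #W(𝔽_p)`. -/
def Supersingular (C : WeierstrassCurve ℚ) (p : ℕ) : Prop :=
  ∃ (W : WeierstrassCurve ℤ) (v : WeierstrassCurve.VariableChange ℚ),
    v • C = W.map (Int.castRingHom ℚ) ∧ ¬ (p : ℤ) ∣ W.Δ ∧ (p : ℤ) ∣ trace W p

theorem e4_eq : Pool.Agent.R498.EJ.e4R ℚ = E4 := by
  ext n
  rw [Pool.Agent.R498.EJ.e4R, PowerSeries.coeff_map, Pool.Agent.R498.EJ.e4, PowerSeries.coeff_mk, E4, PowerSeries.coeff_mk]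
  split_ifs <;> simp

theorem e6_eq : Pool.Agent.R498.EJ.e6R ℚ = E6 := by
  ext n
  rw [Pool.Agent.R498.EJ.e6R, PowerSeries.coeff_map, Pool.Agent.R498.EJ.e6, PowerSeries.coeff_mk, E6, PowerSeries.coeff_mk]
  split_ifs <;> simp

theorem not_dvd_of_val (p : ℕ) [hp : Fact p.Prime] (x D : ℤ) (n : ℕ) (hn : n ≠ 0) (hD : ¬ (p : ℤ) ∣ D) (hx : x ≠ 0)
    (h : padicValRat p ((x : ℚ) ^ n / D) = 0) : ¬ (p : ℤ) ∣ x := by
  have hD0 : (D : ℚ) ≠ 0 := by
    intro h0
    have h1 : D = 0 := by exact_mod_cast h0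
    exact hD (by rw [h1]; exact dvd_zero _)
  have hx0 : (x : ℚ) ≠ 0 := by exact_mod_cast hx
  rw [padicValRat.div (pow_ne_zero _ hx0) hD0, padicValRat.pow, padicValRat.of_int, padicValRat.of_int,
    padicValInt.eq_zero_of_not_dvd hD] at h
  intro hd
  have h1 : padicValInt p x = 0 := by
    have h2 : (n : ℤ) * (padicValInt p x : ℤ) = 0 := by simpa using h
    rcases mul_eq_zero.1 h2 with h3 | h3
    · exact absurd (by exact_mod_cast h3) hn
    · exact_mod_cast h3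
  have h2 := (padicValInt_dvd_iff 1 x).1 (by rw [pow_one]; exact hd)
  rcases h2 with h2 | h2
  · exact hx h2
  · omega

theorem z2 : ∀ x : ZMod 2, x ≠ 0 → x = 1 := by decide

theorem z3 : ∀ x y z : ZMod 3, ∑ t : ZMod 3, (4 * t ^ 3 + x * t ^ 2 + 2 * y * t + z) ^ (3 / 2) = 2 * x := by decide

theorem z3' : ∀ x : ZMod 3, 0 = -(2 * x) → x = 0 := by decide

/-- **The supersingular congruence.** For every elliptic curve `C / ℚ` with `j(C) ≠ 0, 1728` and every supersingular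
prime `p` of `C` with `v_p(j(C)) = v_p(j(C) - 1728) = 0`, the coefficient `a_p` of `E₄ / (j - j(C))` is divisible by
`p²` in the ring of rational numbers with denominators prime to `p`. -/
theorem result (C : WeierstrassCurve ℚ) [C.IsElliptic] (h0 : C.j ≠ 0) (h1 : C.j ≠ 1728) (p : ℕ) (hp : p.Prime)
    (hss : Supersingular C p) (hj : padicValRat p C.j = 0) (hk : padicValRat p (C.j - 1728) = 0) :
    ∃ A B : ℤ, ¬ (p : ℤ) ∣ B ∧ a C.j p * B = p ^ 2 * A := by
  obtain ⟨W, v, hv, hΔ, htr⟩ := hss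
  have hpf : Fact p.Prime := ⟨hp⟩
  have hpZ : Prime (p : ℤ) := Nat.prime_iff_prime_int.1 hp
  have hΔ0 : W.Δ ≠ 0 := by
    intro h
    exact hΔ (by rw [h]; exact dvd_zero _)
  have hΔq : (W.Δ : ℚ) ≠ 0 := by exact_mod_cast hΔ0
  have hjW : C.j = (W.c₄ : ℚ) ^ 3 / W.Δ := by
    have e1 := WeierstrassCurve.variableChange_j C v
    have e2 : ((v • C).Δ' : ℚ) * (v • C).j = (v • C).c₄ ^ 3 := by
      rw [WeierstrassCurve.j, Units.mul_inv_cancel_left]
    rw [WeierstrassCurve.coe_Δ', e1] at e2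
    rw [hv, WeierstrassCurve.map_Δ, WeierstrassCurve.map_c₄] at e2
    rw [eq_div_iff hΔq]
    simp only [eq_intCast] at e2
    linear_combination e2
  have hkW : C.j - 1728 = (W.c₆ : ℚ) ^ 2 / W.Δ := by
    have e1 : (1728 : ℚ) * W.Δ = (W.c₄ : ℚ) ^ 3 - (W.c₆ : ℚ) ^ 2 := by exact_mod_cast W.c_relation
    rw [hjW]
    field_simp
    linear_combination -e1
  have hc4 : W.c₄ ≠ 0 := by
    intro h
    apply h0
    rw [hjW, h]
    simp
  have hc6 : W.c₆ ≠ 0 := by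
    intro h
    apply h1
    have h2 : C.j - 1728 = 0 := by
      rw [hkW, h]
      simp
    linear_combination h2
  rw [hjW] at hj
  rw [hkW] at hk
  have h4 := not_dvd_of_val p W.c₄ W.Δ 3 (by norm_num) hΔ hc4 hj
  have h6 := not_dvd_of_val p W.c₆ W.Δ 2 (by norm_num) hΔ hc6 hk
  have hb : (W.c₄ : ℤ) = W.b₂ ^ 2 - 24 * W.b₄ := rfl
  by_cases hp2 : p = 2
  · exfalso
    subst hp2
    have ha1 : (W.a₁ : ZMod 2) = 1 := by
      apply z2
      intro h
      rw [ZMod.intCast_zmod_eq_zero_iff_dvd] at h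
      apply h4
      obtain ⟨k, hk⟩ := h
      rw [hb, WeierstrassCurve.b₂, hk]
      push_cast
      exact ⟨8 * (k ^ 2 + W.a₂) ^ 2 - 12 * W.b₄, by ring⟩
    have hodd := Pool.Agent.R498.EJ.two_odd W.a₂ W.a₃ W.a₄ W.a₆
    have hcard := Pool.Agent.R498.EJ.ncard_eq 2 (W.a₁ : ZMod 2) W.a₂ W.a₃ W.a₄ W.a₆
    rw [ha1] at hcard
    rw [← hcard] at hodd
    unfold trace at htr
    rw [ha1] at htr
    obtain ⟨k, hk⟩ := htr
    obtain ⟨l, hl⟩ := hodd
    push_cast at hk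
    rw [hl] at hk
    push_cast at hk
    omega
  by_cases hp3 : p = 3
  · exfalso
    subst hp3
    have htm := Pool.Agent.R498.EJ.trace_mod 3 le_rfl W
    have htr' : (3 : ℤ) ∣ Pool.Agent.R498.EJ.trace W 3 := htr
    have hz : ((Pool.Agent.R498.EJ.trace W 3 : ℤ) : ZMod 3) = 0 :=
      (ZMod.intCast_zmod_eq_zero_iff_dvd _ _).2 htr'
    rw [hz] at htm
    have hs : ∑ x : ZMod 3, (4 * x ^ 3 + (W.b₂ : ZMod 3) * x ^ 2 + 2 * (W.b₄ : ZMod 3) * x + (W.b₆ : ZMod 3)) ^ (3 / 2) =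
        2 * (W.b₂ : ZMod 3) := z3 _ _ _
    rw [hs] at htm
    have hb2 : (W.b₂ : ZMod 3) = 0 := z3' _ htm
    rw [ZMod.intCast_zmod_eq_zero_iff_dvd] at hb2
    apply h4
    obtain ⟨k, hk⟩ := hb2
    rw [hb, hk]
    push_cast
    exact ⟨3 * k ^ 2 - 8 * W.b₄, by ring⟩
  have hp5 : 5 ≤ p := by
    have h5 := hp.two_le
    by_contra hlt
    have h6 : p = 4 := by omega
    rw [h6] at hp
    exact absurd hp (by norm_num)
  have ht := Pool.Agent.R498.EJ.transfer p hp5 W hΔ h4 h6 htr C.j (by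
    rw [hjW]
    field_simp)
  have ha : a C.j p = PowerSeries.coeff p (Pool.Agent.R498.EJ.Fc (1 / 1728 : ℚ) C.j) := by
    rw [← Pool.Agent.R498.EJ.coeff_quot, e4_eq, e6_eq]
    rfl
  rw [ha]
  exact ht

end Pool.Agent.Results.MP_06548c_nt.SupersingularCongruence
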